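import Pool.Agent.Lib.MP_58c1c9_gt.Paths

set_option autoImplicit false

/-!
# The Haefliger group of real-analytic codimension-one foliations is not simple

`BGamma` (file `Pool/Agent/Lib/MP_58c1c9_gt/Defs.lean`) is Haefliger's classifying space of the
topological groupoid of germs of orientation preserving real-analytic local diffeomorphisms of the
line, in the infinite join model of Milnor. It is path connected, and its fundamental group is the
Haefliger group.  We prove that this group has a normal subgroup different from the trivial
subgroup and from the whole group.

Sketch of the proof. A local class of increasing local homeomorphisms of the line, closed under
composition and inversion, in which a germ is determined by its restriction to either side of the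
source, has a universal group in which two germs have the same class only if they are
continuations of each other (`LocalClass`, via the theorem `IntervalPree.toGrp_injective` on
partial groups).  Apply this to the class of analytic diffeomorphisms, and to the larger class of
the homeomorphisms which are locally of the form `b ∘ a⁻¹` with `a`, `b` analytic and strictly
increasing (critical points allowed).  The two germs of `x ↦ x ^ 3` at `1` and at `-1` are not
continuations of each other in the first class, but they are in the second one.  Hence the kernel
of the monodromy of the covering attached to the second class is not trivial, and it is not the
whole group because the germ of a translation is not a continuation of an identity germ.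
-/

namespace Pool.Agent.Results.MP_58c1c9_gt.HaefligerGroupNotSimple

open Pool.Agent.Lib.MP_58c1c9_gt

/-- The classifying space is path connected (so the choice of a base point is irrelevant). -/
theorem pathConnected : PathConnectedSpace BGamma := inferInstance

/-- The fundamental group of the classifying space of the groupoid of germs of orientation
preserving analytic local diffeomorphisms of the line has a proper nontrivial normal subgroup. -/
theorem result (b : BGamma) :
    ∃ N : Subgroup (FundamentalGroup BGamma b), N.Normal ∧ N ≠ ⊥ ∧ N ≠ ⊤ :=
  BGamma.main b

end Pool.Agent.Results.MP_58c1c9_gt.HaefligerGroupNotSimple
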